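import Pool.Agent.Helper61.FN.GoalsD
import Pool.Agent.Helper8.DH.F_RIC

/-!
# Project FN, packet LKC: link with the Ricci components, type BC2
-/

set_option autoImplicit false

namespace Pool.Agent.Helper43.FN

open Finset Pool.Agent.Helper61.FN

theorem mon_mC (w : Fin 6 → ℝ) : ∀ j, mon w (mC j) =
    ![(w 0)⁻¹, (w 1)⁻¹, (w 2)⁻¹, (w 3)⁻¹, (w 4)⁻¹, (w 5)⁻¹,
      w 0 * (w 4)⁻¹ * (w 5)⁻¹, (w 0)⁻¹ * w 4 * (w 5)⁻¹, (w 0)⁻¹ * (w 4)⁻¹ * w 5,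
      w 1 * (w 4)⁻¹ * (w 5)⁻¹, (w 1)⁻¹ * w 4 * (w 5)⁻¹, (w 1)⁻¹ * (w 4)⁻¹ * w 5,
      w 2 * ((w 4)⁻¹ * (w 4)⁻¹), w 3 * ((w 5)⁻¹ * (w 5)⁻¹),
      (w 0)⁻¹ * (w 1)⁻¹ * w 2, w 0 * (w 1)⁻¹ * (w 2)⁻¹, (w 0)⁻¹ * w 1 * (w 2)⁻¹,
      (w 0)⁻¹ * (w 1)⁻¹ * w 3, w 0 * (w 1)⁻¹ * (w 3)⁻¹, (w 0)⁻¹ * w 1 * (w 3)⁻¹] j := by
  have h2 : ∀ x : ℝ, x ^ (-2 : ℤ) = x⁻¹ * x⁻¹ := by
    intro x; rw [zpow_neg, ← mul_inv]; norm_cast; rw [pow_two]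
  intro j
  fin_cases j <;>
    simp [mon, mC, Fin.prod_univ_succ, h2, mul_assoc]

theorem alg (p q m ep K : ℝ) (hk : K = 2 * p + 2 * q + m + 2 * ep) (w : Fin 6 → ℝ)
    (hK : 0 < K) (hw : ∀ c, 0 < w c)
    (e0 : w 0 = 1 - (p / K + ep / K) * ((w 1 ^ 2 + w 2 ^ 2 - w 0 ^ 2) / (2 * w 1 * w 2)) -
        (q / K + ep / K) * ((w 1 ^ 2 + w 3 ^ 2 - w 0 ^ 2) / (2 * w 1 * w 3)) -
        m / K * ((w 4 ^ 2 + w 5 ^ 2 - w 0 ^ 2) / (2 * w 4 * w 5)))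
    (e1 : w 1 = 1 - (p / K + ep / K) * ((w 0 ^ 2 + w 2 ^ 2 - w 1 ^ 2) / (2 * w 0 * w 2)) -
        (q / K + ep / K) * ((w 0 ^ 2 + w 3 ^ 2 - w 1 ^ 2) / (2 * w 0 * w 3)) -
        m / K * ((w 4 ^ 2 + w 5 ^ 2 - w 1 ^ 2) / (2 * w 4 * w 5)))
    (e2 : w 2 = 1 - 2 * (q / K) * ((w 0 ^ 2 + w 1 ^ 2 - w 2 ^ 2) / (2 * w 0 * w 1)) -
        m / K * ((w 4 ^ 2 + w 4 ^ 2 - w 2 ^ 2) / (2 * w 4 * w 4)))
    (e3 : w 3 = 1 - 2 * (p / K) * ((w 0 ^ 2 + w 1 ^ 2 - w 3 ^ 2) / (2 * w 0 * w 1)) -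
        m / K * ((w 5 ^ 2 + w 5 ^ 2 - w 3 ^ 2) / (2 * w 5 * w 5)))
    (e4 : w 4 = 1 - (p / K + ep / K) * ((w 2 ^ 2 + w 4 ^ 2 - w 4 ^ 2) / (2 * w 2 * w 4)) -
        q / K * ((w 5 ^ 2 + w 1 ^ 2 - w 4 ^ 2) / (2 * w 5 * w 1) +
          (w 5 ^ 2 + w 0 ^ 2 - w 4 ^ 2) / (2 * w 5 * w 0)))
    (e5 : w 5 = 1 - (q / K + ep / K) * ((w 3 ^ 2 + w 5 ^ 2 - w 5 ^ 2) / (2 * w 3 * w 5)) -
        p / K * ((w 4 ^ 2 + w 1 ^ 2 - w 5 ^ 2) / (2 * w 4 * w 1) +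
          (w 4 ^ 2 + w 0 ^ 2 - w 5 ^ 2) / (2 * w 4 * w 0))) :
    ∀ e, ∑ j, cC p q m ep j * (mC j e : ℝ) * mon w (mC j) = -K * dC p q m ep e := by
  have h0 := (hw 0).ne'
  have h1 := (hw 1).ne'
  have h2 := (hw 2).ne'
  have h3 := (hw 3).ne'
  have h4 := (hw 4).ne'
  have h5 := (hw 5).ne'
  have hK' := hK.ne'
  simp only [mon_mC]
  intro e
  fin_cases e
  · simp [Fin.sum_univ_succ, mC, cC, dC]
    rw [← hk]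
    field_simp at e0 ⊢
    linear_combination (p * q) * e0
  · simp [Fin.sum_univ_succ, mC, cC, dC]
    rw [← hk]
    field_simp at e1 ⊢
    linear_combination (p * q) * e1
  · clear e0 e1 e3 e4 e5
    simp [Fin.sum_univ_succ, mC, cC, dC]
    field_simp at e2 ⊢
    linear_combination (p * (p + ep)) * e2 + (2 * p * (p + ep) * w 0 * w 1 * w 4 ^ 2) * hk
  · clear e0 e1 e2 e4 e5
    simp [Fin.sum_univ_succ, mC, cC, dC]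
    field_simp at e3 ⊢
    linear_combination (q * (q + ep)) * e3 + (2 * q * (q + ep) * w 0 * w 1 * w 5 ^ 2) * hk
  · clear e0 e1 e2 e3 e5
    simp [Fin.sum_univ_succ, mC, cC, dC]
    rw [← hk]
    rw [add_sub_cancel_right] at e4
    field_simp at e4 ⊢
    linear_combination (p * m) * e4
  · clear e0 e1 e2 e3 e4
    simp [Fin.sum_univ_succ, mC, cC, dC]
    rw [← hk]
    rw [add_sub_cancel_right] at e5
    field_simp at e5 ⊢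
    linear_combination (q * m) * e5

theorem goalLKC : G_LKC := by
  intro p q m ep hP w hw hr
  have hp : (0 : ℝ) < p := lt_of_lt_of_le one_pos hP.p1
  have hq : (0 : ℝ) < q := lt_of_lt_of_le one_pos hP.q1
  have hm := hP.mu0
  have hph := hP.ph0
  have hch := hP.ch0
  have hK : (0 : ℝ) < 2 * p + 2 * q + m + 2 * ep := by linarith
  obtain ⟨e0, e1, e2, e3, e4, e5⟩ :=
    Pool.Agent.Helper8.DH.f_ric ep p q m hp hq hm hph hch hK w hw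
  have hh : ∀ x : ℝ, 2 * x * (1 / 2) = x := by intro x; ring
  rw [hr 0, hh] at e0
  rw [hr 1, hh] at e1
  rw [hr 2, hh] at e2
  rw [hr 3, hh] at e3
  rw [hr 4, hh] at e4
  rw [hr 5, hh] at e5
  refine ⟨fun e => (hw e).ne', ?_⟩
  exact alg p q m ep _ rfl w hK hw e0 e1 e2 e3 e4 e5

end Pool.Agent.Helper43.FN
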